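import Pool.Agent.Helper78.AO.Goals
import Pool.Agent.Helper61.DT.GAP

/-!
# AO-MAP: approximation for the machines with memory
-/

namespace Pool.Agent.Helper9.AO

open Pool.Agent.Helper81.CC Pool.Agent.Helper51.ZP Pool.Agent.Helper78.DT Pool.Agent.Helper78.AO
open scoped Classical

theorem lists_mono {n w w' : ℕ} {R : ℕ → ℕ → (ℕ → ℕ) → (ℕ → Bool) → Bool} (h : w ≤ w')
    (hR : Lists n w R) : Lists n w' R := by
  obtain ⟨f, hf, h1⟩ := hR
  exact ⟨f, fun e he => (hf e he).trans h, h1⟩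

/-- The new approximation, in units of `1 / l ^ e`. -/
def rd (e l g f : ℕ) : ℕ := (2 * l ^ e * f + g ^ (e + 2)) / (2 * g ^ (e + 2))

/-- Changing the denominators. -/
theorem rd_spec {e l g f : ℕ} {p : ℝ} (hl : 2 ≤ l) (hg : l ≤ g)
    (h : |(f : ℝ) / (g : ℝ) ^ (e + 2) - p| ≤ 1 / (g : ℝ) ^ (e + 2)) :
    |(rd e l g f : ℝ) / (l : ℝ) ^ e - p| ≤ 1 / (l : ℝ) ^ e := by
  have hl0 : (2 : ℝ) ≤ l := by exact_mod_cast hl
  have hg0 : (l : ℝ) ≤ g := by exact_mod_cast hg
  have hgp : (0 : ℝ) < g := by linarith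
  have hG : (0 : ℝ) < (g : ℝ) ^ (e + 2) := by positivity
  have hL : (0 : ℝ) < (l : ℝ) ^ e := by positivity
  set G : ℝ := (g : ℝ) ^ (e + 2) with hGdef
  set L : ℝ := (l : ℝ) ^ e with hLdef
  have hGn : 0 < g ^ (e + 2) := by
    have : 0 < g := by omega
    positivity
  -- the rounding
  have hr1 : (rd e l g f : ℝ) * (2 * G) ≤ 2 * L * f + G := by
    have : rd e l g f * (2 * g ^ (e + 2)) ≤ 2 * l ^ e * f + g ^ (e + 2) := Nat.div_mul_le_self _ _
    have h2 : ((rd e l g f * (2 * g ^ (e + 2)) : ℕ) : ℝ) ≤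
      ((2 * l ^ e * f + g ^ (e + 2) : ℕ) : ℝ) := by exact_mod_cast this
    push_cast at h2
    exact h2
  have hr2 : 2 * L * f + G < ((rd e l g f : ℝ) + 1) * (2 * G) := by
    have : 2 * l ^ e * f + g ^ (e + 2) < (rd e l g f + 1) * (2 * g ^ (e + 2)) := by
      have := Nat.lt_div_mul_add (a := 2 * l ^ e * f + g ^ (e + 2))
        (b := 2 * g ^ (e + 2)) (by positivity)
      unfold rd
      rw [add_mul, one_mul]
      exact this
    have h2 : ((2 * l ^ e * f + g ^ (e + 2) : ℕ) : ℝ) <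
      (((rd e l g f + 1) * (2 * g ^ (e + 2)) : ℕ) : ℝ) := by exact_mod_cast this
    push_cast at h2
    exact h2
  -- the error of the given approximation
  have hGL : 4 * L ≤ G := by
    have h1 : (l : ℝ) ^ (e + 2) ≤ (g : ℝ) ^ (e + 2) := by
      gcongr
    have h2 : (4 : ℝ) ≤ (l : ℝ) ^ 2 := by nlinarith
    calc 4 * L ≤ (l : ℝ) ^ 2 * (l : ℝ) ^ e := by nlinarith
      _ = (l : ℝ) ^ (e + 2) := by ring
      _ ≤ G := h1
  have h4 : 1 / G ≤ 1 / (4 * L) := one_div_le_one_div_of_le (by positivity) hGL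
  have h5 : |(f : ℝ) / G - p| ≤ 1 / (4 * L) := h.trans h4
  have h6 : |(rd e l g f : ℝ) / L - (f : ℝ) / G| ≤ 1 / (2 * L) := by
    have e1 : (rd e l g f : ℝ) / L - (f : ℝ) / G =
        ((rd e l g f : ℝ) * (2 * G) - 2 * L * f) / (2 * (L * G)) := by
      field_simp
    have e2 : (1 : ℝ) / (2 * L) = G / (2 * (L * G)) := by
      field_simp
    rw [e1, e2, abs_div, abs_of_pos (show (0 : ℝ) < 2 * (L * G) by positivity)]
    refine div_le_div_of_nonneg_right ?_ (by positivity)
    rw [abs_le]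
    constructor <;> linarith
  calc |(rd e l g f : ℝ) / L - p|
      = |((rd e l g f : ℝ) / L - (f : ℝ) / G) + ((f : ℝ) / G - p)| := by ring_nf
    _ ≤ |(rd e l g f : ℝ) / L - (f : ℝ) / G| + |(f : ℝ) / G - p| := abs_add_le _ _
    _ ≤ 1 / (2 * L) + 1 / (4 * L) := add_le_add h6 h5
    _ ≤ 1 / L := by
      have : (1 : ℝ) / (2 * L) + 1 / (4 * L) = (3 / 4) * (1 / L) := by
        field_simp
        norm_num
      rw [this]
      have : (0 : ℝ) < 1 / L := by positivity
      linarith

/-- **MAP.** Approximation for the machines. -/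
theorem map (hGen : GenStmt) (hRk : Rk0Stmt) (hMls : MlsStmt) (hPtm : PtmStmt) : MapStmt := by
  intro c A e
  have hm : PolyTime A.m := Pool.Agent.Helper61.DT.PT_of_comp' A.m_poly
  have hlen : PolyTime (fun x : List Bool => x.length) := by fun_prop
  have hs : PolyTime (fun x : List Bool => x.length + A.m x) := PolyTime.add hlen hm
  obtain ⟨f, hf, h⟩ := hGen (List Bool) (fun x K t h b => runK A x c K t h b (A.T x) 0 []) A.m
    (fun x => x.length + A.m x) (2 * c) (hPtm A c) hm hs (fun x => Nat.le_add_left _ _)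
    (fun x => by
      refine lists_mono ?_ (hMls A x c)
      unfold bd lg
      have h1 : Nat.log 2 x.length ≤ Nat.log 2 (x.length + A.m x) :=
        Nat.log_mono_right (Nat.le_add_right _ _)
      calc 2 * (c * Nat.log 2 x.length + c) = 2 * c * (Nat.log 2 x.length + 1) := by ring
        _ ≤ 2 * c * (Nat.log 2 (x.length + A.m x) + 2) := Nat.mul_le_mul_left _ (by omega))
    (e + 2)
  have hl : PolyTime (fun x : List Bool => Nat.log 2 x.length + 2) :=
    PolyTime.add (Pool.Agent.Helper61.DT.PT_log hlen) (PolyTime.const 2)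
  have hg : PolyTime (fun x : List Bool => lg (x.length + A.m x)) :=
    PolyTime.add (Pool.Agent.Helper61.DT.PT_log hs) (PolyTime.const 2)
  refine ⟨fun x => rd e (Nat.log 2 x.length + 2) (lg (x.length + A.m x)) (f x),
    PolyTime.computable ?_, fun x => ?_⟩
  · unfold rd
    exact PolyTime.div (PolyTime.add (PolyTime.mul (PolyTime.mul (PolyTime.const 2)
      (PolyTime.pow hl e)) hf) (PolyTime.pow hg (e + 2)))
      (PolyTime.mul (PolyTime.const 2) (PolyTime.pow hg (e + 2)))
  · have h1 := h x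
    have h2 : pr (fun b : Fin (A.m x) → Bool =>
        runK A x c 0 0 (fun _ => 0) (cf b) (A.T x) 0 [] = true) =
        (acc A c x : ℝ) / 2 ^ A.m x := by
      rw [pr_eq_card, Fintype.card_fun, Fintype.card_bool, Fintype.card_fin]
      push_cast
      unfold acc
      have h3 : ∀ r : Fin (A.m x) → Bool,
          runK A x c 0 0 (fun _ => 0) (cf r) (A.T x) 0 [] = true ↔
            run A c x (coins r) (A.T x) 0 [] = true := by
        intro r
        rw [hRk]
        exact Iff.rfl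
      rw [Nat.card_congr (Equiv.subtypeEquivRight h3)]
    rw [h2] at h1
    refine rd_spec (by omega) ?_ h1
    unfold lg
    have h3 : Nat.log 2 x.length ≤ Nat.log 2 (x.length + A.m x) :=
      Nat.log_mono_right (Nat.le_add_right _ _)
    omega

end Pool.Agent.Helper9.AO
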